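import Pool.Agent.Helper96.SE.Stmts
import Pool.Agent.Helper31.Grid.Conn

set_option autoImplicit false

/-! CNN: connectedness up to conflicts -/

namespace Pool.Agent.Helper96.SE

open Pool.Agent.Helper52.Grid

/-- the points of the old right end which are replaced by the middle strand -/
def cnn_sp : Bool → ℕ → ℕ → Bool
  | true, 3, 0 => true
  | true, 4, 0 => true
  | true, 5, 0 => true
  | false, 1, 0 => true
  | false, 3, 0 => true
  | false, 1, 1 => true
  | false, 2, 1 => true
  | false, 3, 1 => true
  | _, _, _ => false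

theorem cnn_hsp (f : Bool) (r x : ℕ) (hr : r < 6)
    (h : (if hR r x = 0 then true else if hR r x = 2 then !f else false) = true) :
    cnn_sp f r x = cnn_sp f r (x + 1) := by
  rcases x with _ | _ | _ | x
  · interval_cases r <;> cases f <;> first | rfl | exact absurd h (by decide)
  · interval_cases r <;> cases f <;> first | rfl | exact absurd h (by decide)
  · interval_cases r <;> cases f <;> rfl
  · interval_cases r <;> cases f <;> rfl

theorem cnn_vsp (f : Bool) (i r x : ℕ) (hr : r < 5)
    (h : (if vR i r x = 0 then true else if vR i r x = 2 then f else false) = true) :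
    cnn_sp f r x = cnn_sp f (r + 1) x := by
  rcases x with _ | _ | _ | x
  · interval_cases r <;> cases f <;> first | rfl | exact absurd h (by simp [vR])
  · interval_cases r <;> cases f <;> first | rfl | exact absurd h (by simp [vR])
  · interval_cases r <;> cases f <;> rfl
  · interval_cases r <;> cases f <;> rfl

theorem cnn_vsp5 (f g : Bool) (i x : ℕ)
    (h : (if vR i 5 x = 0 then true else if vR i 5 x = 2 then f else false) = true) :
    cnn_sp f 5 x = false ∧ cnn_sp g 0 x = false := by
  rcases x with _ | _ | _ | x
  · exact absurd h (by simp [vR])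
  · exact absurd h (by simp [vR])
  · cases f <;> cases g <;> exact ⟨rfl, rfl⟩
  · cases f <;> cases g <;> exact ⟨rfl, rfl⟩

variable {s : List Sub} {M : ℕ} {T a ch : ℕ → Bool}

theorem cnn_hOld {x y i r : ℕ} (hi : i < 2 * M + 1) (hr : r < 6) (hy : y = 4 + 6 * i + r) :
    hUse s M a ch (5 + 4 * s.length + x) y =
      (if hR r x = 0 then true else if hR r x = 2 then !bst s a i s.length else false) := by
  have h1 : (y - 4) / 6 = i := by omega
  have h2 : (y - 4) % 6 = r := by omega
  have h3 : ¬ y < 4 := by omega
  have h4 : ¬ 5 + 4 * s.length + x < 5 := by omega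
  have h5 : ¬ 5 + 4 * s.length + x < 5 + 4 * s.length := by omega
  have h6 : 5 + 4 * s.length + x - (5 + 4 * s.length) = x := by omega
  unfold hUse hC hO
  rw [if_neg h3, h1, h2, if_pos hi, if_neg h4, if_neg h5, h6, if_neg h3, if_neg h4, if_neg h5]

theorem cnn_vOld {x y i r : ℕ} (hi : i < 2 * M + 1) (hr : r < 6) (hy : y = 4 + 6 * i + r) :
    vUse s M a ch (5 + 4 * s.length + x) y =
      (if vR i r x = 0 then true else if vR i r x = 2 then bst s a i s.length else false) := by
  have h1 : (y - 4) / 6 = i := by omega
  have h2 : (y - 4) % 6 = r := by omega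
  have h3 : ¬ y < 4 := by omega
  have h4 : ¬ 5 + 4 * s.length + x < 5 := by omega
  have h5 : ¬ 5 + 4 * s.length + x < 5 + 4 * s.length := by omega
  have h6 : 5 + 4 * s.length + x - (5 + 4 * s.length) = x := by omega
  unfold vUse vC vO
  rw [if_neg h3, h1, h2, if_pos hi, if_neg h4, if_neg h5, h6, if_neg h3, if_neg h4, if_neg h5]

theorem cnn_hNew {x y i r : ℕ} (hi : i < 2 * M + 1) (hr : r < 6) (hy : y = 4 + 6 * i + r) :
    hNU s M T a ch (21 + 4 * s.length + x) y =
      (if hR r x = 0 then true else if hR r x = 2 then !bst s a i s.length else false) := by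
  rw [hNU_row hi hr (show 21 + 4 * s.length + x = 5 + 4 * s.length + (16 + x) by omega) hy]
  have h1 : ¬ 16 + x < 4 := by omega
  have h2 : ¬ 16 + x < 12 := by omega
  have h3 : ¬ 16 + x < 16 := by omega
  have h4 : 16 + x - 16 = x := by omega
  unfold hE hOE
  rw [if_neg h1, if_neg h2, if_neg h3, h4, if_neg h1, if_neg h2, if_neg h3]

theorem cnn_vNew {x y i r : ℕ} (hi : i < 2 * M + 1) (hr : r < 6) (hy : y = 4 + 6 * i + r) :
    vNU s M T a ch (21 + 4 * s.length + x) y =
      (if vR i r x = 0 then true else if vR i r x = 2 then bst s a i s.length else false) := by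
  rw [vNU_row hi hr (show 21 + 4 * s.length + x = 5 + 4 * s.length + (16 + x) by omega) hy]
  have h1 : ¬ 16 + x < 4 := by omega
  have h2 : ¬ 16 + x < 12 := by omega
  have h3 : ¬ 16 + x < 16 := by omega
  have h4 : 16 + x - 16 = x := by omega
  unfold vE vOE
  rw [if_neg h1, if_neg h2, if_neg h3, h4, if_neg h1, if_neg h2, if_neg h3]

/-- old used edges in the top lines at the right end -/
theorem cnn_hTop {x y : ℕ} (hy : y < 4) (h : hUse s M a ch (5 + 4 * s.length + x) y = true) :
    y = 3 ∧ x < 2 := by
  unfold hUse hC at h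
  rw [if_pos hy] at h
  unfold hT at h
  have h4 : ¬ 5 + 4 * s.length + x < 5 := by omega
  have h5 : ¬ 5 + 4 * s.length + x < 5 + 4 * s.length := by omega
  rw [if_neg h4, if_neg h5] at h
  by_cases h6 : y = 3 ∧ 5 + 4 * s.length + x < 7 + 4 * s.length
  · exact ⟨h6.1, by omega⟩
  · rw [if_neg h6] at h
    simp at h

theorem cnn_vTop {x y : ℕ} (hy : y < 4) (h : vUse s M a ch (5 + 4 * s.length + x) y = true) :
    y = 3 ∧ x = 2 := by
  unfold vUse vC at h
  rw [if_pos hy] at h
  unfold vT at h
  have h4 : ¬ 5 + 4 * s.length + x < 5 := by omega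
  have h5 : ¬ 5 + 4 * s.length + x < 5 + 4 * s.length := by omega
  rw [if_neg h4, if_neg h5] at h
  by_cases h6 : y = 3 ∧ 5 + 4 * s.length + x = 7 + 4 * s.length
  · exact ⟨h6.1, by omega⟩
  · rw [if_neg h6] at h
    simp at h

theorem cnn_hBot {x y : ℕ} (hy : ¬ y < 4) (hi : ¬ (y - 4) / 6 < 2 * M + 1) :
    hUse s M a ch x y = false := by
  unfold hUse hC
  rw [if_neg hy, if_neg hi]
  rfl

theorem cnn_vBot {x y : ℕ} (hy : ¬ y < 4) (hi : ¬ (y - 4) / 6 < 2 * M + 1) :
    vUse s M a ch x y = false := by
  unfold vUse vC
  rw [if_neg hy, if_neg hi]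
  rfl

/-- costs between the subcolumns and the right end, rows -/
theorem cnn_cross {y i r : ℕ} (hi : i < 2 * M + 1) (hr : r < 6) (hy : y = 4 + 6 * i + r) :
    hC s M (4 + 4 * s.length) y = if r % 2 = 1 then 0 else 4 := by
  have h1 : (y - 4) / 6 = i := by omega
  have h2 : (y - 4) % 6 = r := by omega
  have h3 : ¬ y < 4 := by omega
  unfold hC
  rw [if_neg h3, h1, h2, if_pos hi]
  rcases Nat.eq_zero_or_pos s.length with h0 | h0
  · rw [h0, if_pos (by omega)]
    interval_cases r <;> rfl
  · rw [if_neg (by omega), if_pos (by omega)]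
    have h4 : (4 + 4 * s.length - 5) % 4 = 3 := by omega
    rw [h4]
    generalize kind (sg s ((4 + 4 * s.length - 5) / 4)) i = kd
    interval_cases r <;> cases kd <;> rfl

/-- costs between the subcolumns and the right end, top lines -/
theorem cnn_crossT {y : ℕ} (hy : y < 4) :
    hC s M (4 + 4 * s.length) y = if y = 3 then 0 else 4 := by
  unfold hC
  rw [if_pos hy]
  unfold hT
  rcases Nat.eq_zero_or_pos s.length with h0 | h0
  · rw [h0]
    interval_cases y <;> rfl
  · rw [if_neg (by omega), if_pos (by omega)]
    have h4 : (4 + 4 * s.length - 5) % 4 = 3 := by omega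
    have h5 : (4 + 4 * s.length - 5) / 4 + 1 = s.length := by omega
    have h6 : sg s s.length = none := by
      unfold sg
      exact List.getD_eq_default _ _ le_rfl
    rw [h4, h5, h6]
    interval_cases y <;> simp

theorem st_CNN (h1 : ST_CN1) (h2 : ST_CN2) : ST_CNN := by
  intro s M T a ch hrow hs0 hT hch S hS
  set K := s.length with hK
  have hh := hS.1
  have hv := hS.2
  -- used edges
  have huse0 : ∀ x y, hC s M x y = 0 → hUse s M a ch x y = true := by
    intro x y h
    unfold hUse
    rw [if_pos h]
  -- right end of the row, state true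
  have hR1 : ∀ i, i < 2 * M + 1 → bst s a i K = true →
      (S (21 + 4 * K, 5 + 6 * i) ↔ S (23 + 4 * K, 8 + 6 * i)) := by
    intro i hi hf
    have e1 := hh (21 + 4 * K + 0) (5 + 6 * i)
      (by rw [cnn_hNew hi (r := 1) (by omega) (by omega)]; simp [hR])
    have e2 := hv (21 + 4 * K + 1) (5 + 6 * i)
      (by rw [cnn_vNew hi (r := 1) (by omega) (by omega)]; simp [vR])
    have e3 := hv (21 + 4 * K + 1) (6 + 6 * i)
      (by rw [cnn_vNew hi (r := 2) (by omega) (by omega)]; simp [vR])
    have e4 := hv (21 + 4 * K + 1) (7 + 6 * i)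
      (by rw [cnn_vNew hi (r := 3) (by omega) (by omega)]; simp [vR]; exact hf)
    have e5 := hh (21 + 4 * K + 1) (8 + 6 * i)
      (by rw [cnn_hNew hi (r := 4) (by omega) (by omega)]; simp [hR])
    have p1 : (5 + 6 * i + 1) = 6 + 6 * i := by omega
    have p2 : (6 + 6 * i + 1) = 7 + 6 * i := by omega
    have p3 : (7 + 6 * i + 1) = 8 + 6 * i := by omega
    have p4 : 21 + 4 * K + 1 + 1 = 23 + 4 * K := by omega
    rw [p1] at e2
    rw [p2] at e3
    rw [p3] at e4
    rw [p4] at e5
    exact e1.trans (e2.trans (e3.trans (e4.trans e5)))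
  have hR0 : ∀ i, i < 2 * M + 1 → bst s a i K = false →
      (S (21 + 4 * K, 9 + 6 * i) ↔ S (23 + 4 * K, 8 + 6 * i)) := by
    intro i hi hf
    have e1 := hv (21 + 4 * K + 0) (8 + 6 * i)
      (by rw [cnn_vNew hi (r := 4) (by omega) (by omega)]; simp [vR])
    have e2 := hh (21 + 4 * K + 0) (8 + 6 * i)
      (by rw [cnn_hNew hi (r := 4) (by omega) (by omega)]; simp [hR]; exact hf)
    have e3 := hh (21 + 4 * K + 1) (8 + 6 * i)
      (by rw [cnn_hNew hi (r := 4) (by omega) (by omega)]; simp [hR])
    have p1 : (8 + 6 * i + 1) = 9 + 6 * i := by omega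
    have p4 : 21 + 4 * K + 1 + 1 = 23 + 4 * K := by omega
    rw [p1] at e1
    rw [p4] at e3
    exact e1.symm.trans (e2.trans e3)
  -- the edge at the end of the subcolumns
  have hcr : ∀ i r, i < 2 * M + 1 → r < 6 → r % 2 = 1 →
      (S (4 + 4 * K, 4 + 6 * i + r) ↔ S (5 + 4 * K, 4 + 6 * i + r)) := by
    intro i r hi hr hr1
    have e1 := hh (4 + 4 * K) (4 + 6 * i + r) (by
      rw [hNU_old (by omega)]
      apply huse0
      rw [cnn_cross hi hr rfl, if_pos hr1])
    rw [show 4 + 4 * K + 1 = 5 + 4 * K by omega] at e1
    exact e1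
  have hcrT : S (4 + 4 * K, 3) ↔ S (5 + 4 * K, 3) := by
    have e1 := hh (4 + 4 * K) 3 (by
      rw [hNU_old (by omega)]
      apply huse0
      rw [cnn_crossT (by omega), if_pos rfl])
    rw [show 4 + 4 * K + 1 = 5 + 4 * K by omega] at e1
    exact e1
  have hstr : ∀ j, j ≤ 18 → (S (5 + 4 * K, 3) ↔ S (5 + 4 * K + j, 3)) := by
    intro j
    induction j with
    | zero => intro _; exact Iff.rfl
    | succ j ih =>
      intro hj
      refine (ih (by omega)).trans ?_
      apply hh
      have e : hN s M T (5 + 4 * K + j) 3 = 0 := by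
        rw [hN_top (by omega) (by omega)]
        exact if_pos ⟨rfl, by omega⟩
      unfold hNU
      rw [if_neg (by omega), if_pos e]
  -- the modified set
  set Sc : Pt → Prop := fun p => if p.1 < 5 + 4 * K then S p else
    if p.2 < 4 then S (p.1 + 16, p.2) else
    if cnn_sp (bst s a ((p.2 - 4) / 6) K) ((p.2 - 4) % 6) (p.1 - (5 + 4 * K)) = true then
      S (5 + 4 * K, 7 + 6 * ((p.2 - 4) / 6)) else S (p.1 + 16, p.2) with hSc
  have sc_old : ∀ x y, x < 5 + 4 * K → (Sc (x, y) ↔ S (x, y)) := by
    intro x y hx
    simp only [hSc]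
    rw [if_pos hx]
  have sc_top : ∀ x y, y < 4 → (Sc (5 + 4 * K + x, y) ↔ S (21 + 4 * K + x, y)) := by
    intro x y hy
    simp only [hSc]
    rw [if_neg (by omega), if_pos hy, show 5 + 4 * K + x + 16 = 21 + 4 * K + x by omega]
  have sc_row : ∀ i r x y, r < 6 → y = 4 + 6 * i + r → (Sc (5 + 4 * K + x, y) ↔
      if cnn_sp (bst s a i K) r x = true then S (5 + 4 * K, 7 + 6 * i)
      else S (21 + 4 * K + x, y)) := by
    intro i r x y hr hy
    have e1 : (y - 4) / 6 = i := by omega
    have e2 : (y - 4) % 6 = r := by omega
    simp only [hSc]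
    rw [if_neg (by omega), if_neg (by omega), e1, e2,
      show 5 + 4 * K + x - (5 + 4 * K) = x by omega,
      show 5 + 4 * K + x + 16 = 21 + 4 * K + x by omega]
  have key := Pool.Agent.Helper31.Grid.s_Conn s M a ch hrow hs0 hch Sc ?_ ?_
  · -- consequences
    have k0 : ∀ b, Vert (hC s M) (vC s M) b → b.1 < 5 + 4 * K → (S b ↔ S (1, 3)) := by
      intro b hb hx
      have e1 := key b hb
      have e2 := sc_old b.1 b.2 hx
      have e3 := sc_old 1 3 (by omega)
      exact e2.symm.trans (e1.trans e3)
    have kr : ∀ i r, i < 2 * M + 1 → r < 6 → r % 2 = 1 →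
        (S (5 + 4 * K, 4 + 6 * i + r) ↔ S (1, 3)) := by
      intro i r hi hr hr1
      refine (hcr i r hi hr hr1).symm.trans (k0 _ ?_ (show 4 + 4 * K < 5 + 4 * K by omega))
      left
      show hC s M (4 + 4 * K) (4 + 6 * i + r) = 0
      rw [cnn_cross hi hr rfl, if_pos hr1]
    have kt : S (5 + 4 * K, 3) ↔ S (1, 3) := by
      refine hcrT.symm.trans (k0 _ ?_ (show 4 + 4 * K < 5 + 4 * K by omega))
      left
      show hC s M (4 + 4 * K) 3 = 0
      rw [cnn_crossT (by omega), if_pos rfl]
    have kx : ∀ i, i < 2 * M + 1 → (S (5 + 4 * K, 5 + 6 * i) ↔ S (1, 3)) ∧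
        (S (5 + 4 * K, 7 + 6 * i) ↔ S (1, 3)) ∧
        (S (5 + 4 * K, 9 + 6 * i) ↔ S (1, 3)) ∧
        (S (23 + 4 * K, 8 + 6 * i) ↔ S (1, 3)) := by
      intro i hi
      have a1 := kr i 1 hi (by omega) rfl
      have a3 := kr i 3 hi (by omega) rfl
      have a5 := kr i 5 hi (by omega) rfl
      rw [show 4 + 6 * i + 1 = 5 + 6 * i by omega] at a1
      rw [show 4 + 6 * i + 3 = 7 + 6 * i by omega] at a3
      rw [show 4 + 6 * i + 5 = 9 + 6 * i by omega] at a5
      refine ⟨a1, a3, a5, ?_⟩
      have c1 := h1 s M T a ch hT S hS i hi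
      cases hf : bst s a i K with
      | true => exact (c1.1 hf).2.symm.trans a1
      | false => exact (c1.2 hf).2.symm.trans a5
    intro b hb
    by_cases hx : b.1 < 5 + 4 * K
    · left
      apply k0 b _ hx
      rcases hb with h | h | h | h
      · left; rw [← h]; exact (hN_old hx).symm
      · right; left; rw [← h]; exact (hN_old (by omega)).symm
      · right; right; left; rw [← h]; exact (vN_old hx).symm
      · right; right; right; rw [← h]; exact (vN_old hx).symm
    · by_cases hy : b.2 < 4
      · left
        have hb3 : b.2 = 3 ∧ b.1 ≤ 23 + 4 * K := by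
          rcases hb with h | h | h | h
          · rw [hN_top (by omega) hy] at h
            by_cases h5 : b.2 = 3 ∧ b.1 < 23 + 4 * s.length
            · exact ⟨h5.1, by omega⟩
            · rw [if_neg h5] at h; omega
          · rcases Nat.lt_or_ge (b.1 - 1) (5 + 4 * K) with h6 | h6
            · have h7 : b.1 - 1 = 4 + 4 * K := by omega
              rw [h7, hN_old (by omega), cnn_crossT hy] at h
              by_cases h5 : b.2 = 3
              · exact ⟨h5, by omega⟩
              · rw [if_neg h5] at h; omega
            · rw [hN_top h6 hy] at h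
              by_cases h5 : b.2 = 3 ∧ b.1 - 1 < 23 + 4 * s.length
              · exact ⟨h5.1, by omega⟩
              · rw [if_neg h5] at h; omega
          · rw [vN_top (by omega) hy] at h
            by_cases h5 : b.2 = 3 ∧ b.1 = 23 + 4 * s.length
            · exact ⟨h5.1, by omega⟩
            · rw [if_neg h5] at h; omega
          · rw [vN_top (by omega) (by omega)] at h
            by_cases h5 : b.2 - 1 = 3 ∧ b.1 = 23 + 4 * s.length
            · omega
            · rw [if_neg h5] at h; omega
        have e1 := hstr (b.1 - (5 + 4 * K)) (by omega)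
        rw [show 5 + 4 * K + (b.1 - (5 + 4 * K)) = b.1 by omega, ← hb3.1] at e1
        rw [hb3.1] at e1
        have e2 : b = (b.1, 3) := Prod.ext rfl hb3.1
        rw [e2]
        exact e1.symm.trans kt
      · exact h2 s M T a ch hT S hS kx b hb (by omega) (by omega)
  · -- horizontal edges
    intro x y hu
    rcases Nat.lt_or_ge x (4 + 4 * K) with hx | hx
    · rw [sc_old x y (by omega), sc_old (x + 1) y (by omega)]
      apply hh
      rw [hNU_old (by omega)]
      exact hu
    · rcases Nat.lt_or_ge x (5 + 4 * K) with hx' | hx'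
      · have hxe : x = 4 + 4 * K := by omega
        subst hxe
        rw [sc_old _ y (by omega), show 4 + 4 * K + 1 = 5 + 4 * K + 0 by omega]
        by_cases hy : y < 4
        · have hy3 : y = 3 := by
            by_contra h3
            unfold hUse at hu
            rw [cnn_crossT hy, if_neg h3] at hu
            simp at hu
          subst hy3
          rw [sc_top 0 3 (by omega)]
          refine hcrT.trans ?_
          have e1 := hstr 16 (by omega)
          rw [show 5 + 4 * K + 16 = 21 + 4 * K + 0 by omega] at e1
          exact e1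
        · by_cases hi : (y - 4) / 6 < 2 * M + 1
          · obtain ⟨i, r, hr, hyr, hi'⟩ : ∃ i r, r < 6 ∧ y = 4 + 6 * i + r ∧ i < 2 * M + 1 :=
              ⟨(y - 4) / 6, (y - 4) % 6, Nat.mod_lt _ (by omega), by omega, hi⟩
            have hr1 : r % 2 = 1 := by
              by_contra h3
              unfold hUse at hu
              rw [cnn_cross hi' hr hyr, if_neg h3] at hu
              simp at hu
            rw [sc_row i r 0 y hr hyr]
            have c0 := hcr i r hi' hr hr1
            rw [← hyr] at c0
            refine c0.trans ?_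
            have c1 := h1 s M T a ch hT S hS i hi'
            rcases (show r = 1 ∨ r = 3 ∨ r = 5 by omega) with h | h | h
            · subst h
              cases hf : bst s a i K with
              | true =>
                rw [show cnn_sp true 1 0 = false from rfl]
                have e1 := (c1.1 hf).2.trans (hR1 i hi' hf).symm
                rw [show 5 + 6 * i = y by omega] at e1
                simpa using e1
              | false =>
                rw [show cnn_sp false 1 0 = true from rfl]
                have e1 := (c1.2 hf).1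
                rw [show 5 + 6 * i = y by omega] at e1
                simpa using e1
            · subst h
              have e2 : cnn_sp (bst s a i K) 3 0 = true := by
                cases bst s a i K <;> rfl
              rw [e2, if_pos rfl, hyr, show 4 + 6 * i + 3 = 7 + 6 * i by omega]
            · subst h
              cases hf : bst s a i K with
              | true =>
                rw [show cnn_sp true 5 0 = true from rfl]
                have e1 := (c1.1 hf).1.symm
                rw [show 9 + 6 * i = y by omega] at e1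
                simpa using e1
              | false =>
                rw [show cnn_sp false 5 0 = false from rfl]
                have e1 := (c1.2 hf).2.trans (hR0 i hi' hf).symm
                rw [show 9 + 6 * i = y by omega] at e1
                simpa using e1
          · rw [cnn_hBot hy hi] at hu
            exact absurd hu (by simp)
      · obtain ⟨z, rfl⟩ : ∃ z, x = 5 + 4 * K + z := ⟨x - (5 + 4 * K), by omega⟩
        rw [show 5 + 4 * K + z + 1 = 5 + 4 * K + (z + 1) by omega]
        by_cases hy : y < 4
        · rw [sc_top z y hy, sc_top (z + 1) y hy]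
          obtain ⟨hy3, hz⟩ := cnn_hTop hy hu
          rw [show 21 + 4 * K + (z + 1) = 21 + 4 * K + z + 1 by omega]
          apply hh
          have e : hN s M T (21 + 4 * K + z) y = 0 := by
            rw [hN_top (by omega) hy]
            exact if_pos ⟨hy3, by omega⟩
          unfold hNU
          rw [if_neg (by omega), if_pos e]
        · by_cases hi : (y - 4) / 6 < 2 * M + 1
          · obtain ⟨i, r, hr, hyr, hi'⟩ : ∃ i r, r < 6 ∧ y = 4 + 6 * i + r ∧ i < 2 * M + 1 :=
              ⟨(y - 4) / 6, (y - 4) % 6, Nat.mod_lt _ (by omega), by omega, hi⟩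
            rw [cnn_hOld hi' hr hyr] at hu
            have e1 := cnn_hsp _ r z hr hu
            rw [sc_row i r z y hr hyr, sc_row i r (z + 1) y hr hyr, ← e1]
            have e2 : S (21 + 4 * K + z, y) ↔ S (21 + 4 * K + (z + 1), y) := by
              rw [show 21 + 4 * K + (z + 1) = 21 + 4 * K + z + 1 by omega]
              apply hh
              rw [cnn_hNew hi' hr hyr]
              exact hu
            by_cases hsp : cnn_sp (bst s a i K) r z = true
            · rw [if_pos hsp, if_pos hsp]
            · rw [if_neg hsp, if_neg hsp]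
              exact e2
          · rw [cnn_hBot hy hi] at hu
            exact absurd hu (by simp)
  · -- vertical edges
    intro x y hu
    rcases Nat.lt_or_ge x (5 + 4 * K) with hx | hx
    · rw [sc_old x y (by omega), sc_old x (y + 1) (by omega)]
      apply hv
      rw [vNU_old (by omega)]
      exact hu
    · obtain ⟨z, rfl⟩ : ∃ z, x = 5 + 4 * K + z := ⟨x - (5 + 4 * K), by omega⟩
      by_cases hy : y < 4
      · obtain ⟨hy3, hz⟩ := cnn_vTop hy hu
        subst hy3
        subst hz
        rw [sc_top 2 3 hy, sc_row 0 0 2 (3 + 1) (by omega) (by omega)]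
        have e2 : cnn_sp (bst s a 0 K) 0 2 = false := by
          cases bst s a 0 K <;> rfl
        rw [e2]
        simp only [Bool.false_eq_true, if_false]
        apply hv
        have e : vN s M T (21 + 4 * K + 2) 3 = 0 := by
          rw [vN_top (by omega) (by omega)]
          exact if_pos ⟨rfl, by omega⟩
        unfold vNU
        rw [if_neg (by omega), if_pos e]
      · by_cases hi : (y - 4) / 6 < 2 * M + 1
        · obtain ⟨i, r, hr, hyr, hi'⟩ : ∃ i r, r < 6 ∧ y = 4 + 6 * i + r ∧ i < 2 * M + 1 :=
            ⟨(y - 4) / 6, (y - 4) % 6, Nat.mod_lt _ (by omega), by omega, hi⟩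
          rw [cnn_vOld hi' hr hyr] at hu
          have e2 : S (21 + 4 * K + z, y) ↔ S (21 + 4 * K + z, y + 1) := by
            apply hv
            rw [cnn_vNew hi' hr hyr]
            exact hu
          rcases Nat.lt_or_ge r 5 with hr5 | hr5
          · have e1 := cnn_vsp _ i r z hr5 hu
            rw [sc_row i r z y hr hyr, sc_row i (r + 1) z (y + 1) (by omega) (by omega), ← e1]
            by_cases hsp : cnn_sp (bst s a i K) r z = true
            · rw [if_pos hsp, if_pos hsp]
            · rw [if_neg hsp, if_neg hsp]
              exact e2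
          · have hr5' : r = 5 := by omega
            subst hr5'
            obtain ⟨e3, e4⟩ := cnn_vsp5 _ (bst s a (i + 1) K) i z hu
            rw [sc_row i 5 z y hr hyr, sc_row (i + 1) 0 z (y + 1) (by omega) (by omega), e3, e4]
            simpa using e2
        · rw [cnn_vBot hy hi] at hu
          exact absurd hu (by simp)

end Pool.Agent.Helper96.SE
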